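import Pool.Agent.J4H46.TP.Full

/-!
An example over the rational numbers.
-/

set_option autoImplicit false
set_option linter.all false

open Polynomial NumberField IsDedekindDomain Filter Topology
open scoped Classical

namespace Pool.Agent.J4H46.TP

open Pool.Agent.W401.Cheb Pool.Agent.J4H46.TA
open Pool.Agent.N181.TC (Full2 surfF)

/-- Rational numbers which are not powers. -/
theorem not_pow (l : ℕ) (hl : l.Prime) (m n : ℤ) (hm : ¬ (l : ℤ) ∣ m) (hn : ¬ (l : ℤ) ∣ n)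
    {p : ℕ} (hp : 2 ≤ p) (y : ℚ) : y ^ p ≠ (l : ℚ) * (m / n) := by
  haveI : Fact l.Prime := ⟨hl⟩
  intro h
  have hm0 : (m : ℚ) ≠ 0 := by
    intro h0
    rw [Int.cast_eq_zero] at h0
    exact hm (h0 ▸ dvd_zero _)
  have hn0 : (n : ℚ) ≠ 0 := by
    intro h0
    rw [Int.cast_eq_zero] at h0
    exact hn (h0 ▸ dvd_zero _)
  have hl0 : (l : ℚ) ≠ 0 := Nat.cast_ne_zero.2 hl.ne_zero
  have h1 : padicValRat l (y ^ p) = 1 := by
    rw [h, padicValRat.mul hl0 (div_ne_zero hm0 hn0), padicValRat.div hm0 hn0,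
      padicValRat.of_int, padicValRat.of_int, padicValInt.eq_zero_of_not_dvd hm,
      padicValInt.eq_zero_of_not_dvd hn, padicValRat.self hl.one_lt]
    norm_num
  have hy : y ≠ 0 := by
    rintro rfl
    rw [zero_pow (by omega)] at h
    exact mul_ne_zero hl0 (div_ne_zero hm0 hn0) h.symm
  rw [padicValRat.pow] at h1
  have h2 : (p : ℤ) ∣ 1 := ⟨_, h1.symm⟩
  have := Int.le_of_dvd one_pos h2
  omega

theorem card_nz {k : Type} [Field k] (g : k[X]) : ((g.roots.toFinset).erase 0).card ≤ g.natDegree :=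
  Finset.card_erase_le.trans ((Multiset.toFinset_card_le _).trans (card_roots' _))

/-- The bad places of the example. -/
def rts : Fin 6 → ℚ := ![2, -2, -5, -5 / 3, -3 / 2, -7 / 2]

theorem rts_inj : Function.Injective rts := by
  intro i j h
  fin_cases i <;> fin_cases j <;> simp [rts] at h ⊢ <;> norm_num at h

theorem prod_rts : (((X ^ 2 - 4) * (-((3 * X + 5) * (X + 5))) *
      ((X ^ 2 - 4) - (-((3 * X + 5) * (X + 5)))) : (𝓞 ℚ)[X])).map (algebraMap (𝓞 ℚ) ℚ) =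
    C (-12) * ∏ i, (X - C (rts i)) := by
  simp only [Polynomial.map_mul, Polynomial.map_sub, Polynomial.map_add, Polynomial.map_neg,
    Polynomial.map_pow, map_X, Polynomial.map_ofNat]
  rw [Fin.prod_univ_six]
  have e0 : rts 0 = 2 := rfl
  have e1 : rts 1 = -2 := rfl
  have e2 : rts 2 = -5 := rfl
  have e3 : rts 3 = -5 / 3 := rfl
  have e4 : rts 4 = -3 / 2 := rfl
  have e5 : rts 5 = -7 / 2 := rfl
  rw [e0, e1, e2, e3, e4, e5]
  have h3 : (3 : ℚ[X]) * C (-5 / 3) = -5 := by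
    have : (3 : ℚ[X]) = C 3 := (C_ofNat 3).symm
    rw [this, ← C_mul]
    norm_num
    exact C_ofNat 5
  have h4 : (2 : ℚ[X]) * C (-3 / 2) = -3 := by
    have : (2 : ℚ[X]) = C 2 := (C_ofNat 2).symm
    rw [this, ← C_mul]
    norm_num
    exact C_ofNat 3
  have h5 : (2 : ℚ[X]) * C (-7 / 2) = -7 := by
    have : (2 : ℚ[X]) = C 2 := (C_ofNat 2).symm
    rw [this, ← C_mul]
    norm_num
    exact C_ofNat 7
  have c12 : (C (-12) : ℚ[X]) = -(3 * 2 * 2) := by
    rw [C_neg, C_ofNat]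
    norm_num
  have c2 : (C 2 : ℚ[X]) = 2 := C_ofNat 2
  have cm2 : (C (-2) : ℚ[X]) = -2 := by rw [C_neg, C_ofNat]
  have cm5 : (C (-5) : ℚ[X]) = -5 := by rw [C_neg, C_ofNat]
  rw [c12, c2, cm2, cm5]
  have k3 : (3 : ℚ[X]) * (X - C (-5 / 3)) = 3 * X + 5 := by rw [mul_sub, h3]; ring
  have k4 : (2 : ℚ[X]) * (X - C (-3 / 2)) = 2 * X + 3 := by rw [mul_sub, h4]; ring
  have k5 : (2 : ℚ[X]) * (X - C (-7 / 2)) = 2 * X + 7 := by rw [mul_sub, h5]; ring
  calc _ = -((X - 2) * (X + 2) * (X + 5) * (3 * X + 5) * (2 * X + 3) * (2 * X + 7) : ℚ[X]) := by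
        ring
    _ = -((X - 2) * (X + 2) * (X + 5) * (3 * (X - C (-5 / 3))) * (2 * (X - C (-3 / 2))) *
        (2 * (X - C (-7 / 2)))) := by rw [k3, k4, k5]
    _ = _ := by ring

theorem base_exa : BaseF (X ^ 2 - 4 : (𝓞 ℚ)[X]) (-((3 * X + 5) * (X + 5))) := by
  have e := prod_rts
  have h12 : (-12 : ℚ) ≠ 0 := by norm_num
  have hn : (∏ i, (X - C (rts i))).natDegree = 6 := by
    rw [natDegree_prod_of_monic _ _ fun i _ => monic_X_sub_C _]
    simp
  refine ⟨⟨two_ne_zero, ?_, ?_, ?_, ?_⟩, ?_⟩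
  · simp only [Polynomial.map_sub, Polynomial.map_pow, map_X, Polynomial.map_ofNat]
    compute_degree
  · simp only [Polynomial.map_mul, Polynomial.map_add, Polynomial.map_neg, map_X,
      Polynomial.map_ofNat]
    compute_degree
  · rw [← Polynomial.map_sub, ← Polynomial.map_mul, ← Polynomial.map_mul, e]
    exact (separable_prod_X_sub_C_iff.2 rts_inj).unit_mul (isUnit_C.2 (isUnit_iff_ne_zero.2 h12))
  · rw [← Polynomial.map_sub, ← Polynomial.map_mul, ← Polynomial.map_mul, e,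
      natDegree_C_mul h12, hn]
    norm_num
  · rw [e]
    exact (Splits.C _).mul (Splits.prod fun i _ => Splits.X_sub_C _)

theorem exaF {p : ℕ} (hp : p.Prime) (h7 : 7 ≤ p) :
    ∃ δ : ℝ, 0 < δ ∧ ∀ᶠ N : ℕ in atTop, δ ≤ dens (fun v => ∀ j : ℕ,
      GoodF (p ^ j) (X ^ 2 - 4 : (𝓞 ℚ)[X]) (-((3 * X + 5) * (X + 5))) (X ^ (p ^ j)) 1 v) N := by
  have e := prod_rts
  have h12 : (-12 : ℚ) ≠ 0 := by norm_num
  have hroot : ∀ ξ : ℚ, (((X ^ 2 - 4) * (-((3 * X + 5) * (X + 5))) *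
      ((X ^ 2 - 4) - (-((3 * X + 5) * (X + 5)))) : (𝓞 ℚ)[X]).map (algebraMap (𝓞 ℚ) ℚ)).IsRoot ξ →
      ∃ i, ξ = rts i := by
    intro ξ hξ
    rw [e, IsRoot.def, eval_mul, eval_C, eval_prod, mul_eq_zero] at hξ
    obtain ⟨i, -, hi⟩ := Finset.prod_eq_zero_iff.1 (hξ.resolve_left h12)
    rw [eval_sub, eval_X, eval_C, sub_eq_zero] at hi
    exact ⟨i, hi⟩
  refine towerF base_exa hp (hp.odd_of_ne_two (by omega)) ?_ ?_
  · refine lt_of_le_of_lt (card_nz _) ?_
    have hn : (∏ i, (X - C (rts i))).natDegree = 6 := by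
      rw [natDegree_prod_of_monic _ _ fun i _ => monic_X_sub_C _]
      simp
    rw [e, natDegree_C_mul h12, hn]
    omega
  · intro ξ hξ _ y
    obtain ⟨i, rfl⟩ := hroot ξ hξ
    have h2 : 2 ≤ p := by omega
    fin_cases i
    · have := not_pow 2 Nat.prime_two 1 1 (by norm_num) (by norm_num) h2 y
      simpa [rts] using this
    · have := not_pow 2 Nat.prime_two (-1) 1 (by norm_num) (by norm_num) h2 y
      simpa [rts] using this
    · have := not_pow 5 (by norm_num) (-1) 1 (by norm_num) (by norm_num) h2 y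
      simpa [rts] using this
    · have := not_pow 5 (by norm_num) (-1) 3 (by norm_num) (by norm_num) h2 y
      have e : ((5 : ℕ) : ℚ) * (((-1 : ℤ) : ℚ) / ((3 : ℤ) : ℚ)) = -5 / 3 := by norm_num
      rw [e] at this
      exact this
    · have := not_pow 3 (by norm_num) (-1) 2 (by norm_num) (by norm_num) h2 y
      have e : ((3 : ℕ) : ℚ) * (((-1 : ℤ) : ℚ) / ((2 : ℤ) : ℚ)) = -3 / 2 := by norm_num
      rw [e] at this
      exact this
    · have := not_pow 7 (by norm_num) (-1) 2 (by norm_num) (by norm_num) h2 y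
      have e : ((7 : ℕ) : ℚ) * (((-1 : ℤ) : ℚ) / ((2 : ℤ) : ℚ)) = -7 / 2 := by norm_num
      rw [e] at this
      exact this

end Pool.Agent.J4H46.TP
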