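import Pool.Agent.J4H46.TP.Three
import Pool.Agent.J4H46.TP.ExaF

/-!
An example over the rational numbers.
-/

set_option autoImplicit false
set_option linter.all false

open Polynomial NumberField IsDedekindDomain Filter Topology
open scoped Classical

namespace Pool.Agent.J4H46.TP

open Pool.Agent.W401.Cheb Pool.Agent.J4H46.TA
open Pool.Agent.N181.P8

/-- Rational numbers which are not powers. -/
theorem not_pow' (l e : ℕ) (hl : l.Prime) (m n : ℤ) (hm : ¬ (l : ℤ) ∣ m) (hn : ¬ (l : ℤ) ∣ n)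
    {p : ℕ} (he : 0 < e) (hp : e < p) (y : ℚ) : y ^ p ≠ (l : ℚ) ^ e * (m / n) := by
  haveI : Fact l.Prime := ⟨hl⟩
  intro h
  have hm0 : (m : ℚ) ≠ 0 := by
    intro h0
    rw [Int.cast_eq_zero] at h0
    exact hm (h0 ▸ dvd_zero _)
  have hn0 : (n : ℚ) ≠ 0 := by
    intro h0
    rw [Int.cast_eq_zero] at h0
    exact hn (h0 ▸ dvd_zero _)
  have hl0 : (l : ℚ) ≠ 0 := Nat.cast_ne_zero.2 hl.ne_zero
  have h1 : padicValRat l (y ^ p) = e := by
    rw [h, padicValRat.mul (pow_ne_zero _ hl0) (div_ne_zero hm0 hn0), padicValRat.div hm0 hn0,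
      padicValRat.of_int, padicValRat.of_int, padicValInt.eq_zero_of_not_dvd hm,
      padicValInt.eq_zero_of_not_dvd hn, padicValRat.pow, padicValRat.self hl.one_lt]
    norm_num
  have hy : y ≠ 0 := by
    rintro rfl
    rw [zero_pow (by omega)] at h
    exact mul_ne_zero (pow_ne_zero _ hl0) (div_ne_zero hm0 hn0) h.symm
  rw [padicValRat.pow] at h1
  have h2 : (p : ℤ) ∣ (e : ℤ) := ⟨_, h1.symm⟩
  have := Int.le_of_dvd (by omega) h2
  omega

theorem card_lt {k : Type} [Field k] {g : k[X]} {p : ℕ} (h0 : g ≠ 0) (hr : g.IsRoot 0)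
    (hd : g.natDegree ≤ p) : ((g.roots.toFinset).erase 0).card < p := by
  have h1 : (0 : k) ∈ g.roots.toFinset := by
    rw [Multiset.mem_toFinset, mem_roots h0]
    exact hr
  have h2 := Finset.card_erase_lt_of_mem h1
  have h3 : g.roots.toFinset.card ≤ g.natDegree := (Multiset.toFinset_card_le _).trans (card_roots' _)
  omega

/-- The bad places of the example. -/
def rt5 : Fin 5 → ℚ := ![0, -2, -16, -27 / 4, -182 / 27]

/-- `a` of the example. -/
noncomputable def eA : (𝓞 ℚ)[X] := -(6 * (X + 6))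

/-- `b` of the example. -/
noncomputable def eB : (𝓞 ℚ)[X] := -(2 * (X + 2) * (X + 16) * (4 * X + 27))

theorem eA_map : eA.map (algebraMap (𝓞 ℚ) ℚ) = -(6 * (X + 6)) := by
  unfold eA
  simp only [Polynomial.map_mul, Polynomial.map_add, Polynomial.map_neg, map_X,
    Polynomial.map_ofNat]

theorem eB_map : eB.map (algebraMap (𝓞 ℚ) ℚ) = -(2 * (X + 2) * (X + 16) * (4 * X + 27)) := by
  unfold eB
  simp only [Polynomial.map_mul, Polynomial.map_add, Polynomial.map_neg, map_X,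
    Polynomial.map_ofNat]

theorem eD : eA ^ 3 - 27 * eB = 54 * X * (27 * X + 182) := by
  unfold eA eB
  ring

theorem eG_map : (eB * (eA ^ 3 - 27 * eB)).map (algebraMap (𝓞 ℚ) ℚ) =
    C (-(2 * 4 * 54 * 27)) * ∏ i, (X - C (rt5 i)) := by
  rw [eD, Polynomial.map_mul, eB_map]
  simp only [Polynomial.map_mul, Polynomial.map_add, map_X, Polynomial.map_ofNat]
  rw [Fin.prod_univ_five]
  have e0 : rt5 0 = 0 := rfl
  have e1 : rt5 1 = -2 := rfl
  have e2 : rt5 2 = -16 := rfl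
  have e3 : rt5 3 = -27 / 4 := rfl
  have e4 : rt5 4 = -182 / 27 := rfl
  rw [e0, e1, e2, e3, e4]
  have h3 : (4 : ℚ[X]) * C (-27 / 4) = -27 := by
    have : (4 : ℚ[X]) = C 4 := (C_ofNat 4).symm
    rw [this, ← C_mul]
    norm_num
    exact C_ofNat 27
  have h4 : (27 : ℚ[X]) * C (-182 / 27) = -182 := by
    have : (27 : ℚ[X]) = C 27 := (C_ofNat 27).symm
    rw [this, ← C_mul]
    norm_num
    exact C_ofNat 182
  have c12 : (C (-(2 * 4 * 54 * 27)) : ℚ[X]) = -(2 * 4 * 54 * 27) := by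
    rw [C_neg, C_mul, C_mul, C_mul, C_ofNat, C_ofNat, C_ofNat, C_ofNat]
  have cm2 : (C (-2) : ℚ[X]) = -2 := by rw [C_neg, C_ofNat]
  have cm5 : (C (-16) : ℚ[X]) = -16 := by rw [C_neg, C_ofNat]
  rw [c12, C_0, cm2, cm5]
  have k3 : (4 : ℚ[X]) * (X - C (-27 / 4)) = 4 * X + 27 := by rw [mul_sub, h3]; ring
  have k4 : (27 : ℚ[X]) * (X - C (-182 / 27)) = 27 * X + 182 := by rw [mul_sub, h4]; ring
  calc _ = -(2 * (X + 2) * (X + 16) * (4 * X + 27) * (54 * X * (27 * X + 182)) : ℚ[X]) := by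
        ring
    _ = -(2 * (X + 2) * (X + 16) * (4 * (X - C (-27 / 4))) *
        (54 * X * (27 * (X - C (-182 / 27))))) := by rw [k3, k4]
    _ = _ := by ring

theorem rt5_inj : Function.Injective rt5 := by
  intro i j h
  fin_cases i <;> fin_cases j <;> simp [rt5] at h ⊢ <;> norm_num at h

theorem rt5_deg : (∏ i, (X - C (rt5 i))).natDegree = 5 := by
  rw [natDegree_prod_of_monic _ _ fun i _ => monic_X_sub_C _]
  simp

theorem base_exaT : BaseT eA eB := by
  have e := eG_map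
  refine ⟨⟨three_ne_zero, ?_, ?_, ?_, ?_⟩, ?_⟩
  · rw [eA_map]
    compute_degree
  · rw [eB_map]
    compute_degree
  · intro c w h
    have hexp : eB.map (algebraMap (𝓞 ℚ) ℚ) = C (-8 : ℚ) * X ^ 3 + C (-198) * X ^ 2 + C (-1228) * X +
        C (-1728) := by
      rw [eB_map, C_neg, C_neg, C_neg, C_neg, C_ofNat, C_ofNat, C_ofNat, C_ofNat]
      ring
    have hd : (eB.map (algebraMap (𝓞 ℚ) ℚ)).natDegree = 3 := by
      rw [hexp]
      compute_degree!
    obtain ⟨c3, c2, c1, c0⟩ := coef4 _ _ _ _ hexp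
    obtain ⟨i1, i2⟩ := cube_inv hd h
    rw [c3, c2, c1] at i1
    norm_num at i1
  · intro c w h
    have hexp : eA.map (algebraMap (𝓞 ℚ) ℚ) ^ 3 - 27 * eB.map (algebraMap (𝓞 ℚ) ℚ) =
        C (1458 : ℚ) * X ^ 2 + C 9828 * X := by
      rw [eA_map, eB_map, C_ofNat, C_ofNat]
      ring
    have hd : (eA.map (algebraMap (𝓞 ℚ) ℚ) ^ 3 - 27 * eB.map (algebraMap (𝓞 ℚ) ℚ)).natDegree = 2 := by
      rw [hexp]
      compute_degree!
    have hc : c ≠ 0 := by
      rintro rfl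
      rw [C_0, zero_mul] at h
      rw [h, natDegree_zero] at hd
      omega
    rw [h, natDegree_C_mul hc, natDegree_pow] at hd
    omega
  · rw [e]
    exact (Splits.C _).mul (Splits.prod fun i _ => Splits.X_sub_C _)

theorem exaT {p : ℕ} (hp : p.Prime) (h5 : 5 ≤ p) :
    ∃ δ : ℝ, 0 < δ ∧ ∀ᶠ N : ℕ in atTop, δ ≤ dens (fun v => ∀ j : ℕ,
      GoodT (p ^ j) eA eB (X ^ (p ^ j)) 1 v) N := by
  have e := eG_map
  have h12 : (-(2 * 4 * 54 * 27) : ℚ) ≠ 0 := by norm_num
  have hroot : ∀ ξ : ℚ, ((eB * (eA ^ 3 - 27 * eB)).map (algebraMap (𝓞 ℚ) ℚ)).IsRoot ξ →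
      ∃ i, ξ = rt5 i := by
    intro ξ hξ
    rw [e, IsRoot.def, eval_mul, eval_C, eval_prod, mul_eq_zero] at hξ
    obtain ⟨i, -, hi⟩ := Finset.prod_eq_zero_iff.1 (hξ.resolve_left h12)
    rw [eval_sub, eval_X, eval_C, sub_eq_zero] at hi
    exact ⟨i, hi⟩
  refine towerT base_exaT hp h5 ?_ ?_
  · refine card_lt (g := (eB * (eA ^ 3 - 27 * eB)).map (algebraMap (𝓞 ℚ) ℚ)) ?_ ?_ ?_
    · rw [e]
      exact mul_ne_zero (C_ne_zero.2 h12) (Finset.prod_ne_zero_iff.2 fun i _ => X_sub_C_ne_zero _)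
    · rw [e, IsRoot.def, eval_mul, eval_prod]
      apply mul_eq_zero_of_right
      apply Finset.prod_eq_zero (Finset.mem_univ 0)
      rw [eval_sub, eval_X, eval_C]
      exact sub_self _
    · rw [e, natDegree_C_mul h12, rt5_deg]
      exact h5
  · intro ξ hξ h0 y
    obtain ⟨i, rfl⟩ := hroot ξ hξ
    have h2 : 1 < p := by omega
    fin_cases i
    · exact absurd rfl h0
    · have := not_pow' 2 1 Nat.prime_two (-1) 1 (by norm_num) (by norm_num) (p := p)
        (by norm_num) h2 y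
      simpa [rt5] using this
    · have := not_pow' 2 4 Nat.prime_two (-1) 1 (by norm_num) (by norm_num) (p := p)
        (by norm_num) (by omega) y
      have e : ((2 : ℕ) : ℚ) ^ 4 * (((-1 : ℤ) : ℚ) / ((1 : ℤ) : ℚ)) = -16 := by norm_num
      rw [e] at this
      exact this
    · have := not_pow' 3 3 Nat.prime_three (-1) 4 (by norm_num) (by norm_num) (p := p)
        (by norm_num) (by omega) y
      have e : ((3 : ℕ) : ℚ) ^ 3 * (((-1 : ℤ) : ℚ) / ((4 : ℤ) : ℚ)) = -27 / 4 := by norm_num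
      rw [e] at this
      exact this
    · have := not_pow' 7 1 (by norm_num) (-26) 27 (by norm_num) (by norm_num) (p := p)
        (by norm_num) h2 y
      have e : ((7 : ℕ) : ℚ) ^ 1 * (((-26 : ℤ) : ℚ) / ((27 : ℤ) : ℚ)) = -182 / 27 := by norm_num
      rw [e] at this
      exact this

end Pool.Agent.J4H46.TP
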