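import Pool.Agent.J4H46.TA.Fld

/-!
Simultaneous cycles of prime length for a family of polynomials, and the primes with such a Frobenius
element.
-/

set_option autoImplicit false
set_option linter.all false

open Polynomial NumberField IsDedekindDomain Filter Topology
open scoped Classical Pointwise

namespace Pool.Agent.J4H46.TP

open Pool.Agent.W401.Cheb Pool.Agent.J4H46.TA

section sylow

/-- Simultaneous elements of `p`-power order for fewer than `p` actions. -/
theorem sylow_fam {G ι : Type} [Group G] [Fintype ι] {X : ι → Type} [∀ i, Finite (X i)]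
    (α : ∀ i, G →* Equiv.Perm (X i)) {p : ℕ} [hp : Fact p.Prime]
    (hα : ∀ i, p ∣ Nat.card (α i).range) (hc : Fintype.card ι < p) :
    ∃ (g : G) (j : ℕ), ∀ i, α i g ^ (p ^ j) = 1 ∧ α i g ≠ 1 := by
  obtain ⟨H, hH⟩ : ∃ H : Subgroup (∀ i, Equiv.Perm (X i)), H = (MonoidHom.pi α).range := ⟨_, rfl⟩
  have hmem : ∀ y ∈ H, ∃ γ : G, MonoidHom.pi α γ = y := fun y hy => by rw [hH] at hy; exact hy
  haveI : Finite H := inferInstance
  obtain ⟨a, ha⟩ : ∃ a : ∀ i, H →* Equiv.Perm (X i),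
      a = fun i => (Pi.evalMonoidHom (fun i => Equiv.Perm (X i)) i).comp H.subtype := ⟨_, rfl⟩
  have ra : ∀ i, (a i).range = (α i).range := by
    intro i
    ext x
    constructor
    · rintro ⟨⟨y, hy⟩, rfl⟩
      rw [hH] at hy
      obtain ⟨g, rfl⟩ := hy
      exact ⟨g, by rw [ha]; rfl⟩
    · rintro ⟨g, rfl⟩
      exact ⟨⟨_, by rw [hH]; exact ⟨g, rfl⟩⟩, by rw [ha]; rfl⟩
  obtain ⟨P⟩ : Nonempty (Sylow p H) := inferInstance
  have key : ∀ i, ∃ g ∈ P, a i g ≠ 1 := by
    intro i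
    by_contra hall
    push Not at hall
    have h1 : (P : Subgroup H) ≤ (a i).ker := fun g hg => hall g hg
    have h2 := Subgroup.index_dvd_of_le h1
    rw [Subgroup.index_ker, ra] at h2
    exact P.not_dvd_index ((hα i).trans h2)
  -- an element outside of all the kernels
  obtain ⟨g, hg⟩ : ∃ g : (P : Subgroup H), ∀ i, a i (g : H) ≠ 1 := by
    by_contra hno
    push Not at hno
    obtain ⟨K, hK⟩ : ∃ K : ι → Subgroup (P : Subgroup H),
        K = fun i => ((a i).comp (P : Subgroup H).subtype).ker := ⟨_, rfl⟩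
    have hcov : ⋃ i ∈ (Finset.univ : Finset ι), (1 : (P : Subgroup H)) • (K i : Set (P : Subgroup H)) =
        Set.univ := by
      rw [Set.eq_univ_iff_forall]
      intro x
      obtain ⟨i, hi⟩ := hno x
      rw [Set.mem_iUnion₂]
      refine ⟨i, Finset.mem_univ i, ?_⟩
      rw [one_smul, hK]
      exact hi
    obtain ⟨i, -, hf, hi⟩ := Subgroup.exists_index_le_card_of_leftCoset_cover hcov
    rw [Finset.card_univ] at hi
    have h1 : (K i).index ≠ 1 := by
      rw [Ne, Subgroup.index_eq_one]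
      intro h
      obtain ⟨g, hgP, hga⟩ := key i
      apply hga
      have : (⟨g, hgP⟩ : (P : Subgroup H)) ∈ K i := by rw [h]; trivial
      rw [hK] at this
      exact this
    obtain ⟨n, hn⟩ := (P.isPGroup'.index (K i))
    rw [hn] at h1 hi
    rcases Nat.eq_zero_or_pos n with h0 | h0
    · rw [h0, pow_zero] at h1
      exact h1 rfl
    · have h2 : p ^ 1 ≤ p ^ n := Nat.pow_le_pow_right hp.out.pos h0
      rw [pow_one] at h2
      omega
  obtain ⟨j, hj⟩ := P.isPGroup' g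
  have hj' : (g : H) ^ (p ^ j) = 1 := congrArg Subtype.val hj
  obtain ⟨γ, hγ⟩ : ∃ γ : G, MonoidHom.pi α γ = ((g : H) : ∀ i, Equiv.Perm (X i)) :=
    hmem _ (g : H).2
  have e : ∀ i, α i γ = a i (g : H) := by
    intro i
    rw [ha]
    show MonoidHom.pi α γ i = ((g : H) : ∀ i, Equiv.Perm (X i)) i
    rw [hγ]
  refine ⟨γ, j, fun i => ⟨?_, ?_⟩⟩
  · rw [e, ← map_pow, hj', map_one]
  · rw [e]
    exact hg i

end sylow

section fam

variable {k : Type} [Field k]

/-- The automorphism `σ` permutes the roots of `f` in one cycle. -/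
def OneCycle (σ : AlgebraicClosure k ≃ₐ[k] AlgebraicClosure k) (f : k[X]) : Prop :=
  ∃ x ∈ f.rootSet (AlgebraicClosure k), ∀ z ∈ f.rootSet (AlgebraicClosure k),
    ∃ i : ℕ, z = (σ ^ i) x

/-- For separable polynomials of odd degree. -/
theorem oddCycles_of_one {σ : AlgebraicClosure k ≃ₐ[k] AlgebraicClosure k} {f : k[X]}
    (sf : f.Separable) (hd : Odd f.natDegree) (h : OneCycle σ f) : OddCycles σ f := by
  obtain ⟨x, hx, hall⟩ := h
  obtain ⟨π, hπ⟩ : ∃ π, π = MulAction.toPermHom (AlgebraicClosure k ≃ₐ[k] AlgebraicClosure k)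
      (f.rootSet (AlgebraicClosure k)) σ := ⟨_, rfl⟩
  have hp : ∀ (i : ℕ) (z : f.rootSet (AlgebraicClosure k)),
      (((π ^ i) z : f.rootSet (AlgebraicClosure k)) : AlgebraicClosure k) = (σ ^ i) z := by
    intro i z
    rw [hπ, ← map_pow]
    rfl
  have hreach : ∀ z : f.rootSet (AlgebraicClosure k), ∃ i : ℕ, z = (π ^ i) ⟨x, hx⟩ := by
    intro z
    obtain ⟨i, hi⟩ := hall z z.2
    exact ⟨i, Subtype.ext (by rw [hp, hi])⟩
  have hcyc : π.IsCycleOn (Finset.univ : Finset (f.rootSet (AlgebraicClosure k))) := by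
    refine ⟨?_, ?_⟩
    · rw [Finset.coe_univ]
      exact Set.bijOn_univ.2 π.bijective
    · intro y _ z _
      obtain ⟨i, hi⟩ := hreach y
      obtain ⟨j, hj⟩ := hreach z
      have h1 : π.SameCycle ⟨x, hx⟩ y := ⟨i, by rw [zpow_natCast]; exact hi.symm⟩
      have h2 : π.SameCycle ⟨x, hx⟩ z := ⟨j, by rw [zpow_natCast]; exact hj.symm⟩
      exact h1.symm.trans h2
  have hcard : (Finset.univ : Finset (f.rootSet (AlgebraicClosure k))).card = f.natDegree := by
    rw [Finset.card_univ]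
    exact card_rootSet_eq_natDegree sf (IsAlgClosed.splits _)
  have hper : (σ ^ f.natDegree) x = x := by
    have h1 := hcyc.pow_card_apply (Finset.mem_univ (⟨x, hx⟩ : f.rootSet (AlgebraicClosure k)))
    rw [hcard] at h1
    have h2 := hp f.natDegree ⟨x, hx⟩
    rw [h1] at h2
    exact h2.symm
  exact ⟨x, hx, x, hx, ⟨_, hd, hper⟩, ⟨_, hd, hper⟩, fun z hz => by
    obtain ⟨i, hi⟩ := hall z hz
    exact ⟨i, Or.inl hi⟩⟩

/-- Irreducible polynomials of the same prime degree `p`, fewer than `p`. -/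
theorem prime_fam [CharZero k] {F : Finset k[X]} {p : ℕ} (hp : p.Prime) (hodd : Odd p)
    (hF : ∀ f ∈ F, Irreducible f ∧ f.Separable ∧ f.natDegree = p) (hc : F.card < p) :
    ∃ σ : AlgebraicClosure k ≃ₐ[k] AlgebraicClosure k, ∀ f ∈ F, OddCycles σ f := by
  haveI : Fact p.Prime := ⟨hp⟩
  obtain ⟨σ, j, h⟩ := sylow_fam (ι := F) (X := fun f => (f : k[X]).rootSet (AlgebraicClosure k))
    (fun f => MulAction.toPermHom (AlgebraicClosure k ≃ₐ[k] AlgebraicClosure k)
      ((f : k[X]).rootSet (AlgebraicClosure k))) (p := p)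
    (fun f => by
      rw [card_range]
      have h1 := Gal.prime_degree_dvd_card (p := (f : k[X])) (hF f f.2).1
        (by rw [(hF f f.2).2.2]; exact hp)
      rw [(hF f f.2).2.2] at h1
      exact h1)
    (by rw [Fintype.card_coe]; exact hc)
  refine ⟨σ, fun f hf => ?_⟩
  obtain ⟨h1, h2⟩ := h ⟨f, hf⟩
  have cardf : Fintype.card (f.rootSet (AlgebraicClosure k)) ≤ p + 1 :=
    (card_rootSet_le f).trans (by rw [(hF f hf).2.2]; exact Nat.le_succ p)
  exact oddCycles_of (oddCyc_of hodd (prime_cyc hp h1 h2 cardf) cardf)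

end fam

section dens

variable {k : Type} [Field k] [NumberField k]

/-- **A positive proportion of the primes.** -/
theorem pos_fam {F : Finset k[X]} (hF : ∀ f ∈ F, f ≠ 0) {σ : GK k}
    (h1 : ∀ f ∈ F, OddCycles σ f) {P : HeightOneSpectrum (𝓞 k) → Prop}
    {S : Set (HeightOneSpectrum (𝓞 k))} (hS : S.Finite)
    (h : ∀ v ∉ S, ∀ τ : GK k, (∀ f ∈ F, OddCycles τ f) → IsFrob v τ → P v) :
    ∃ δ : ℝ, 0 < δ ∧ ∀ᶠ N : ℕ in atTop, δ ≤ dens P N := by
  have hfg : (∏ f ∈ F, f) ≠ 0 := Finset.prod_ne_zero_iff.2 hF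
  refine pos_dens (C := {τ : GK k | ∀ f ∈ F, OddCycles τ f})
    (MulAction.toPermHom (GK k) ((∏ f ∈ F, f).rootSet (AlgebraicClosure k))).ker (open_ker _)
    ?_ ?_ ⟨σ, h1⟩ hS ?_
  · intro τ h3 ρ f hf
    exact (h3 f hf).conj ρ
  · intro τ h3 u hu
    have hux : ∀ x ∈ (∏ f ∈ F, f).rootSet (AlgebraicClosure k), u x = x := by
      intro x hx
      have h5 := congrArg (fun π : Equiv.Perm ((∏ f ∈ F, f).rootSet (AlgebraicClosure k)) =>
        ((π ⟨x, hx⟩ : (∏ f ∈ F, f).rootSet (AlgebraicClosure k)) : AlgebraicClosure k))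
        (MonoidHom.mem_ker.1 hu)
      exact h5
    intro f hf
    refine OddCycles.congr (fun x hx => ?_) (h3 f hf)
    rw [AlgEquiv.mul_apply, hux x]
    rw [mem_rootSet]
    refine ⟨hfg, ?_⟩
    rw [map_prod]
    exact Finset.prod_eq_zero hf (mem_rootSet.1 hx).2
  · rintro v hv ⟨τ, h3, h5⟩
    exact h v hv τ h3 h5

end dens

end Pool.Agent.J4H46.TP
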