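import Pool.Agent.J4H46.TP.Prime

/-!
The Tate conjecture for the reductions of the pullbacks of the rational elliptic surfaces with full level
two over number fields.
-/

set_option autoImplicit false
set_option linter.all false

open Polynomial NumberField IsDedekindDomain Filter Topology
open scoped Classical

namespace Pool.Agent.J4H46.TP

open Pool.Agent.W401.Cheb Pool.Agent.J4H46.TA
open Pool.Agent.N181.TC (Full2 surfF)
open Pool.Agent.N181.TD
open Pool.Agent.N181.P8 (TateQ OneAbove OneAboveInf)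
open Pool.Agent.TH115.GD (IsTower)

/-- The Tate conjecture at `2` and the index of the pulled back points, over all the finite extensions `L`
of `κ` of degree prime to `n`, for the pullback by `q / r` of `y² = x (x - a) (x - b)`. -/
def HoldsF {κ : Type} [Field κ] (n : ℕ) (a b q r : κ[X]) : Prop :=
  ∀ (L L' K₀ K F : Type) [Field L] [Field L'] [Field K₀] [Field K] [Field F]
    [Algebra κ L] [FiniteDimensional κ L] [Algebra L L'] [Algebra L[X] K₀] [IsFractionRing L[X] K₀]
    [Algebra L[X] K] [Algebra L'[X] F] [IsFractionRing L'[X] F] [Algebra K F],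
    IsTower L L' K F → Nat.Coprime n (Module.finrank κ L) →
    TateQ (F := F) 2 L' (surfF K (q.map (algebraMap κ L)) (r.map (algebraMap κ L))
      (a.map (algebraMap κ L)) (b.map (algebraMap κ L))) ∧
    PointsIdx2 K₀ K F (q.map (algebraMap κ L)) (r.map (algebraMap κ L))
      (a.map (algebraMap κ L)) (b.map (algebraMap κ L))

section defs

variable {k : Type} [Field k] [NumberField k]

/-- The curve `y² = x (x - a) (x - b)` over `k(s)` is the generic fibre of a rational elliptic surface with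
full level two and six fibres of type `I₂` over rational points. -/
structure BaseF (a b : (𝓞 k)[X]) : Prop where
  rat : Full2 (a.map (algebraMap (𝓞 k) k)) (b.map (algebraMap (𝓞 k) k))
  spl : ((a * b * (a - b)).map (algebraMap (𝓞 k) k)).Splits

/-- The forms of the places of bad reduction: `q - ξ r` for the roots `ξ` of `a b (a - b)`, and `r` if the
place at infinity is bad and `r` is not `1`. -/
def FormF (a b q r : (𝓞 k)[X]) (f : k[X]) : Prop :=
  (∃ ξ : k, ((a * b * (a - b)).map (algebraMap (𝓞 k) k)).IsRoot ξ ∧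
    f = q.map (algebraMap (𝓞 k) k) - C ξ * r.map (algebraMap (𝓞 k) k)) ∨
  ((a * b * (a - b)).natDegree = 5 ∧ r ≠ 1 ∧ f = r.map (algebraMap (𝓞 k) k))

/-- At the prime `v` of `k`, with the residue field `κ`, the base has good reduction (the same six places of
bad fibres), the map `q / r` has one closed point above each of them, and the conclusions hold. -/
def GoodF (n : ℕ) (a b q r : (𝓞 k)[X]) (v : HeightOneSpectrum (𝓞 k)) : Prop :=
  ∀ (κ : Type) [Field κ] (π : 𝓞 k →+* κ), Function.Surjective π → RingHom.ker π = v.asIdeal →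
    Full2 (a.map π) (b.map π) ∧
    ((a * b * (a - b)).map π).natDegree = (a * b * (a - b)).natDegree ∧
    CoverG (q.map π) (r.map π) n (a.map π) (b.map π) ∧
    HoldsF n (a.map π) (b.map π) (q.map π) (r.map π)

end defs

section main

variable {k : Type} [Field k] [NumberField k]

theorem gF_ne {a b : (𝓞 k)[X]} (hB : BaseF a b) : a * b * (a - b) ≠ 0 := by
  intro h
  have h1 := hB.rat.sep.ne_zero
  apply h1
  rw [← Polynomial.map_sub, ← Polynomial.map_mul, ← Polynomial.map_mul, h, Polynomial.map_zero]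

theorem gF_deg {a b : (𝓞 k)[X]} (hB : BaseF a b) : 5 ≤ (a * b * (a - b)).natDegree ∧
    (a * b * (a - b)).natDegree ≤ 6 ∧ a.natDegree ≤ 2 ∧ b.natDegree ≤ 2 := by
  have inj := FaithfulSMul.algebraMap_injective (𝓞 k) k
  have e := hB.rat.deg
  have da := hB.rat.da
  have db := hB.rat.db
  rw [natDegree_map_eq_of_injective inj] at da db
  rw [← Polynomial.map_sub, ← Polynomial.map_mul, ← Polynomial.map_mul,
    natDegree_map_eq_of_injective inj] at e
  refine ⟨e, ?_, da, db⟩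
  have h1 := natDegree_mul_le (p := a * b) (q := a - b)
  have h2 := natDegree_mul_le (p := a) (q := b)
  have h3 := natDegree_sub_le a b
  have h4 : max a.natDegree b.natDegree ≤ 2 := max_le da db
  omega

/-- A reduction with one closed point above each bad place. -/
theorem goodF_of {a b q r : (𝓞 k)[X]} {n : ℕ} (hB : BaseF a b) (hM : MapDeg n q r) :
    ∃ s : 𝓞 k, s ≠ 0 ∧ ∀ (κ : Type) [Field κ] (π : 𝓞 k →+* κ), π s ≠ 0 →
      Full2 (a.map π) (b.map π) ∧
      ((a * b * (a - b)).map π).natDegree = (a * b * (a - b)).natDegree ∧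
      ((∀ P : κ[X], Irreducible P → P ∣ (a * b * (a - b)).map π →
        OneAbove (q.map π) (r.map π) n P) →
       ((a * b * (a - b)).natDegree = 5 → OneAboveInf (r.map π) n) →
        CoverG (q.map π) (r.map π) n (a.map π) (b.map π) ∧
        HoldsF n (a.map π) (b.map π) (q.map π) (r.map π)) := by
  have inj := FaithfulSMul.algebraMap_injective (𝓞 k) k
  have hg := gF_ne hB
  obtain ⟨d5, d6, da, db⟩ := gF_deg hB
  have hsep : ((a * b * (a - b)).map (algebraMap (𝓞 k) k)).Separable := by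
    rw [Polynomial.map_mul, Polynomial.map_mul, Polynomial.map_sub]
    exact hB.rat.sep
  obtain ⟨s₁, hs₁, h₁⟩ := sep_red hsep
  obtain ⟨s₂, hs₂, h₂⟩ := cop_red hM.co
  have hq0 : q ≠ 0 := by
    rintro rfl
    have := hM.qp
    rw [natDegree_zero] at this
    exact lt_irrefl _ this
  have h20 : (2 : 𝓞 k) ≠ 0 := two_ne_zero
  refine ⟨s₁ * s₂ * q.leadingCoeff * (a * b * (a - b)).leadingCoeff * 2,
    mul_ne_zero (mul_ne_zero (mul_ne_zero (mul_ne_zero hs₁ hs₂) (leadingCoeff_ne_zero.2 hq0))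
      (leadingCoeff_ne_zero.2 hg)) h20, ?_⟩
  intro κ _ π hπ
  rw [map_mul, map_mul, map_mul, map_mul, map_ofNat] at hπ
  have p5 : (2 : κ) ≠ 0 := right_ne_zero_of_mul hπ
  have hπ := left_ne_zero_of_mul hπ
  have p4 : π (a * b * (a - b)).leadingCoeff ≠ 0 := right_ne_zero_of_mul hπ
  have hπ := left_ne_zero_of_mul hπ
  have p3 : π q.leadingCoeff ≠ 0 := right_ne_zero_of_mul hπ
  have hπ := left_ne_zero_of_mul hπ
  have p2 := right_ne_zero_of_mul hπ
  have p1 := left_ne_zero_of_mul hπ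
  have eg : a.map π * b.map π * (a.map π - b.map π) = (a * b * (a - b)).map π := by
    rw [Polynomial.map_mul, Polynomial.map_mul, Polynomial.map_sub]
  have dg := natDegree_map_of_leadingCoeff_ne_zero π p4
  have hF2 : Full2 (a.map π) (b.map π) :=
    ⟨p5, natDegree_map_le.trans da, natDegree_map_le.trans db, by rw [eg]; exact h₁ κ π p1,
      by rw [eg, dg]; exact d5⟩
  refine ⟨hF2, dg, fun hP hI => ?_⟩
  have hC : CoverG (q.map π) (r.map π) n (a.map π) (b.map π) := by
    refine ⟨h₂ κ π p2, ?_, natDegree_map_le.trans hM.qn, natDegree_map_le.trans hM.rn, ?_, ?_, ?_⟩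
    · rw [natDegree_map_of_leadingCoeff_ne_zero π p3]
      exact hM.qp
    · rw [← even_iff_two_dvd, Nat.not_even_iff_odd]
      exact hM.odd
    · intro P h1 h2
      rw [eg] at h2
      exact hP P h1 h2
    · intro h5
      rw [eg, dg] at h5
      exact hI (le_antisymm h5 d5)
  refine ⟨hC, ?_⟩
  intro L L' K₀ K F _ _ _ _ _ _ _ _ _ _ _ _ _ _ hT hn
  exact mainG hT hF2 hC hn

/-- **The criterion.** -/
theorem critF {a b q r : (𝓞 k)[X]} {n : ℕ} (hB : BaseF a b) (hM : MapDeg n q r) {σ : GK k}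
    (h : ∀ f, FormF a b q r f → OneAt σ n f) :
    ∃ δ : ℝ, 0 < δ ∧ ∀ᶠ N : ℕ in atTop, δ ≤ dens (GoodF n a b q r) N := by
  obtain ⟨s, hs0, hs⟩ := goodF_of hB hM
  obtain ⟨F, t, ht0, hF0, hFσ, hF⟩ := map_red (g := a * b * (a - b)) (q := q) (r := r) hM.odd
    (gF_ne hB) hB.spl (I := (a * b * (a - b)).natDegree = 5 ∧ r ≠ 1) (σ := σ)
    (fun ξ hξ => h _ (Or.inl ⟨ξ, hξ, rfl⟩)) (fun hI => h _ (Or.inr ⟨hI.1, hI.2, rfl⟩))
  refine pos_fam hF0 hFσ (fin_bad (mul_ne_zero hs0 ht0)) fun v hv τ hτ hfr κ _ π hsu hk => ?_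
  have hst : π (s * t) ≠ 0 := by
    intro h0
    apply hv
    show s * t ∈ v.asIdeal
    rw [← hk, RingHom.mem_ker]
    exact h0
  rw [map_mul] at hst
  obtain ⟨h1, h2, h3⟩ := hs κ π (left_ne_zero_of_mul hst)
  obtain ⟨h4, h5, h6⟩ := hF v τ hfr hτ κ π hsu hk (right_ne_zero_of_mul hst)
  obtain ⟨h7, h8⟩ := h3 h5 (fun hd => by
    by_cases hr : r = 1
    · rw [hr, Polynomial.map_one]
      exact Or.inl rfl
    · exact h6 ⟨hd, hr⟩)
  exact ⟨h1, h2, h7, h8⟩

/-- **Maps of prime degree.** -/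
theorem primeF {a b q r : (𝓞 k)[X]} {n : ℕ} (hB : BaseF a b) (hM : MapDeg n q r) (hp : n.Prime)
    (h7 : 7 ≤ n) (h : ∀ f, FormF a b q r f → InertOrTotal n f) :
    ∃ δ : ℝ, 0 < δ ∧ ∀ᶠ N : ℕ in atTop, δ ≤ dens (GoodF n a b q r) N := by
  obtain ⟨d5, d6, da, db⟩ := gF_deg hB
  obtain ⟨σ, h1, h2⟩ := forms_sigma (g := a * b * (a - b)) (q := q) (r := r) hp (gF_ne hB)
    (I := (a * b * (a - b)).natDegree = 5 ∧ r ≠ 1) (fun ξ hξ => h _ (Or.inl ⟨ξ, hξ, rfl⟩))
    (fun hI => h _ (Or.inr ⟨hI.1, hI.2, rfl⟩)) (fun _ => by omega) (fun hI => by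
      have := hI.1
      omega)
  refine critF hB hM (σ := σ) ?_
  rintro f (⟨ξ, hξ, rfl⟩ | ⟨hI1, hI2, rfl⟩)
  · exact h1 ξ hξ
  · exact h2 ⟨hI1, hI2⟩

/-- **Towers.** -/
theorem towerF {a b : (𝓞 k)[X]} {p : ℕ} (hB : BaseF a b) (hp : p.Prime) (hodd : Odd p)
    (hc : ((((a * b * (a - b)).map (algebraMap (𝓞 k) k)).roots.toFinset).erase 0).card < p)
    (h : ∀ ξ : k, ((a * b * (a - b)).map (algebraMap (𝓞 k) k)).IsRoot ξ → ξ ≠ 0 →
      ∀ y : k, y ^ p ≠ ξ) :
    ∃ δ : ℝ, 0 < δ ∧ ∀ᶠ N : ℕ in atTop,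
      δ ≤ dens (fun v => ∀ j : ℕ, GoodF (p ^ j) a b (X ^ (p ^ j)) 1 v) N := by
  obtain ⟨σ, hσ⟩ := pow_sigma hp (gF_ne hB) hc h
  have hco : ∀ m : ℕ, IsCoprime (((X : (𝓞 k)[X]) ^ m).map (algebraMap (𝓞 k) k))
      ((1 : (𝓞 k)[X]).map (algebraMap (𝓞 k) k)) := by
    intro m
    rw [Polynomial.map_one]
    exact isCoprime_one_right
  have hM : MapDeg p ((X : (𝓞 k)[X]) ^ p) 1 := by
    refine ⟨hco p, ?_, ?_, ?_, hodd⟩
    · rw [natDegree_X_pow]; exact hp.pos
    · rw [natDegree_X_pow]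
    · rw [natDegree_one]; exact Nat.zero_le _
  obtain ⟨s, hs0, hs⟩ := goodF_of hB hM
  obtain ⟨F, t, ht0, hF0, hFσ, hF⟩ := map_red (g := a * b * (a - b)) (q := X ^ p) (r := 1) hodd
    (gF_ne hB) hB.spl (I := False) (σ := σ) hσ (fun h => h.elim)
  have hp0 : (p : 𝓞 k) ≠ 0 := Nat.cast_ne_zero.2 hp.ne_zero
  refine pos_fam hF0 hFσ (fin_bad (mul_ne_zero (mul_ne_zero hs0 ht0) hp0))
    fun v hv τ hτ hfr j κ _ π hsu hk => ?_
  have hst : π (s * t * p) ≠ 0 := by
    intro h0
    apply hv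
    show s * t * p ∈ v.asIdeal
    rw [← hk, RingHom.mem_ker]
    exact h0
  rw [map_mul, map_mul, map_natCast] at hst
  have hpk : (p : κ) ≠ 0 := right_ne_zero_of_mul hst
  have hst := left_ne_zero_of_mul hst
  obtain ⟨h1, h2, -⟩ := hs κ π (left_ne_zero_of_mul hst)
  obtain ⟨h4, h5, -⟩ := hF v τ hfr hτ κ π hsu hk (right_ne_zero_of_mul hst)
  have eg : a.map π * b.map π * (a.map π - b.map π) = (a * b * (a - b)).map π := by
    rw [Polynomial.map_mul, Polynomial.map_mul, Polynomial.map_sub]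
  have hl : π (a * b * (a - b)).leadingCoeff ≠ 0 := by
    intro h0
    have h6 := natDegree_map_le (f := π) (p := a * b * (a - b))
    have h7 : ((a * b * (a - b)).map π).coeff (a * b * (a - b)).natDegree = 0 := by
      rw [coeff_map]
      exact h0
    rw [← h4] at h7
    have h8 : (a * b * (a - b)).map π = 0 := leadingCoeff_eq_zero.1 h7
    have h9 := h1.sep.ne_zero
    rw [eg] at h9
    exact h9 h8
  obtain ⟨hsp, hrt⟩ := root_red hB.spl π hl
  rw [Polynomial.map_pow, map_X, Polynomial.map_one] at h5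
  have hnp : ¬ 2 ∣ p ^ j := by
    rw [← even_iff_two_dvd, Nat.not_even_iff_odd]
    exact hodd.pow
  have hP : PolyCover (C 1 * X ^ (p ^ j)) (a.map π) (b.map π) := by
    refine poly_pow h1 (by rw [eg]; exact hsp) hnp ?_ one_ne_zero fun ξ hξ => ?_
    · rw [Nat.cast_pow]
      exact pow_ne_zero _ hpk
    · rw [eg] at hξ
      rcases pow_good hp hpk h5 hξ with h0 | h0
      · exact Or.inl h0
      · right
        intro l hl hlp y
        have e : l = p := (Nat.prime_dvd_prime_iff_eq hl hp).1 (hl.dvd_of_dvd_pow hlp)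
        rw [e, div_one]
        exact h0 y
  rw [C_1, one_mul] at hP
  have hC : CoverG (((X : (𝓞 k)[X]) ^ (p ^ j)).map π) ((1 : (𝓞 k)[X]).map π) (p ^ j) (a.map π)
      (b.map π) := by
    rw [Polynomial.map_pow, map_X, Polynomial.map_one]
    have hd : (X ^ (p ^ j) : κ[X]).natDegree = p ^ j := natDegree_X_pow _
    refine ⟨isCoprime_one_right, ?_, hd.le, by rw [natDegree_one]; exact Nat.zero_le _, hnp,
      fun P h1 h2 => ?_, fun _ => Or.inl rfl⟩
    · rw [hd]
      exact pow_pos hp.pos j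
    · have := (hP.fin P h1 h2).above
      rwa [hd] at this
  refine ⟨h1, h2, hC, ?_⟩
  intro L L' K₀ K F _ _ _ _ _ _ _ _ _ _ _ _ _ _ hT hn
  exact mainG hT h1 hC hn

end main

end Pool.Agent.J4H46.TP
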