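import Pool.Agent.J4H46.TP.Two

/-!
Simultaneous cycles for the forms of a map of prime degree, and for the maps `t ↦ t ^ (ℓ ^ j)`.
-/

set_option autoImplicit false
set_option linter.all false

open Polynomial NumberField IsDedekindDomain Filter Topology
open scoped Classical

namespace Pool.Agent.J4H46.TP

open Pool.Agent.W401.Cheb Pool.Agent.J4H46.TA
open Pool.Agent.N181.P8 (OneAbove OneAboveInf)
open Pool.Agent.X243.Gen (pb pb_mul pb_C pb_lin)

section cyc

theorem oneCyc_of {X : Type} [Fintype X] {π : Equiv.Perm X} {r : ℕ} (h : π.cycleType = {r})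
    (hX : Fintype.card X ≤ r) : ∃ x : X, ∀ z, ∃ i : ℕ, z = (π ^ i) x := by
  have hcyc : π.IsCycle := by rw [← Equiv.Perm.card_cycleType_eq_one, h]; simp
  have hsupp : π.support.card = r := by rw [← Equiv.Perm.sum_cycleType, h]; simp
  have huniv : π.support = Finset.univ := by
    apply Finset.eq_univ_of_card
    have := Finset.card_le_univ π.support
    omega
  obtain ⟨x, hx, -⟩ := id hcyc
  refine ⟨x, fun z => ?_⟩
  have hz : π z ≠ z := by
    have : z ∈ π.support := by rw [huniv]; exact Finset.mem_univ z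
    exact Equiv.Perm.mem_support.1 this
  obtain ⟨i, hi⟩ := hcyc.exists_pow_eq hx hz
  exact ⟨i, hi.symm⟩

variable {k : Type} [Field k] [CharZero k]

/-- Irreducible polynomials of the same prime degree `p`, fewer than `p`. -/
theorem prime_fam' {F : Finset k[X]} {p : ℕ} (hp : p.Prime)
    (hF : ∀ f ∈ F, Irreducible f ∧ f.natDegree = p) (hc : F.card < p) :
    ∃ σ : AlgebraicClosure k ≃ₐ[k] AlgebraicClosure k, ∀ f ∈ F, OneCycle σ f := by
  haveI : Fact p.Prime := ⟨hp⟩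
  obtain ⟨σ, j, h⟩ := sylow_fam (ι := F) (X := fun f => (f : k[X]).rootSet (AlgebraicClosure k))
    (fun f => MulAction.toPermHom (AlgebraicClosure k ≃ₐ[k] AlgebraicClosure k)
      ((f : k[X]).rootSet (AlgebraicClosure k))) (p := p)
    (fun f => by
      rw [card_range]
      have h1 := Gal.prime_degree_dvd_card (p := (f : k[X])) (hF f f.2).1
        (by rw [(hF f f.2).2]; exact hp)
      rw [(hF f f.2).2] at h1
      exact h1)
    (by rw [Fintype.card_coe]; exact hc)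
  refine ⟨σ, fun f hf => ?_⟩
  obtain ⟨h1, h2⟩ := h ⟨f, hf⟩
  have cardf : Fintype.card (f.rootSet (AlgebraicClosure k)) ≤ p :=
    (card_rootSet_le f).trans (by rw [(hF f hf).2])
  obtain ⟨x, hx⟩ := oneCyc_of (prime_cyc hp h1 h2 (cardf.trans (Nat.le_succ p))) cardf
  refine ⟨x, x.2, fun z hz => ?_⟩
  obtain ⟨i, hi⟩ := hx ⟨z, hz⟩
  refine ⟨i, ?_⟩
  have hp : ∀ (i : ℕ) (z : f.rootSet (AlgebraicClosure k)),
      ((((MulAction.toPermHom (AlgebraicClosure k ≃ₐ[k] AlgebraicClosure k)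
      (f.rootSet (AlgebraicClosure k)) σ) ^ i) z : f.rootSet (AlgebraicClosure k)) :
        AlgebraicClosure k) = (σ ^ i) z := by
    intro i z
    rw [← map_pow]
    rfl
  rw [← hp, ← hi]

/-- Irreducible of degree `n`, or a constant times the `n`-th power of a linear polynomial. -/
def InertOrTotal (n : ℕ) (f : k[X]) : Prop :=
  (Irreducible f ∧ f.natDegree = n) ∨ ∃ c τ : k, c ≠ 0 ∧ f = C c * (X - C τ) ^ n

theorem prime_at {F : Finset k[X]} {n : ℕ} (hp : n.Prime) (hF : ∀ f ∈ F, InertOrTotal n f)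
    (hc : F.card < n) :
    ∃ σ : AlgebraicClosure k ≃ₐ[k] AlgebraicClosure k, ∀ f ∈ F,
      ∃ (c : k) (ρ : k[X]) (e : ℕ), c ≠ 0 ∧ ρ.Separable ∧ e * ρ.natDegree = n ∧
        f = C c * ρ ^ e ∧ OneCycle σ ρ := by
  obtain ⟨σ, hσ⟩ := prime_fam' (F := F.filter fun f => Irreducible f ∧ f.natDegree = n) hp
    (fun f hf => (Finset.mem_filter.1 hf).2) (lt_of_le_of_lt (Finset.card_filter_le _ _) hc)
  refine ⟨σ, fun f hf => ?_⟩
  rcases hF f hf with h | ⟨c, τ, hc, h⟩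
  · exact ⟨1, f, 1, one_ne_zero, h.1.separable, by rw [h.2, one_mul], by rw [C_1, one_mul, pow_one],
      hσ f (Finset.mem_filter.2 ⟨hf, h⟩)⟩
  · refine ⟨c, X - C τ, n, hc, separable_X_sub_C, by rw [natDegree_X_sub_C, mul_one], h, ?_⟩
    have hroot : ∀ z, z ∈ (X - C τ).rootSet (AlgebraicClosure k) ↔
        z = algebraMap k (AlgebraicClosure k) τ := by
      intro z
      rw [mem_rootSet, aeval_sub, aeval_X, aeval_C, sub_eq_zero]
      exact ⟨fun h => h.2, fun h => ⟨X_sub_C_ne_zero τ, h⟩⟩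
    refine ⟨algebraMap k (AlgebraicClosure k) τ, (hroot _).2 rfl, fun z hz => ⟨0, ?_⟩⟩
    rw [(hroot z).1 hz]
    rfl

end cyc

section forms

variable {k : Type} [Field k] [NumberField k]

theorem forms_sigma {g q r : (𝓞 k)[X]} {n : ℕ} (hp : n.Prime) (hg : g ≠ 0) {I : Prop}
    (h1 : ∀ ξ : k, (g.map (algebraMap (𝓞 k) k)).IsRoot ξ →
      InertOrTotal n (q.map (algebraMap (𝓞 k) k) - C ξ * r.map (algebraMap (𝓞 k) k)))
    (h2 : I → InertOrTotal n (r.map (algebraMap (𝓞 k) k)))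
    (hc1 : ¬ I → g.natDegree < n) (hc2 : I → g.natDegree + 1 < n) :
    ∃ σ : GK k, (∀ ξ : k, (g.map (algebraMap (𝓞 k) k)).IsRoot ξ →
      OneAt σ n (q.map (algebraMap (𝓞 k) k) - C ξ * r.map (algebraMap (𝓞 k) k))) ∧
      (I → OneAt σ n (r.map (algebraMap (𝓞 k) k))) := by
  have inj := FaithfulSMul.algebraMap_injective (𝓞 k) k
  have hg0 : g.map (algebraMap (𝓞 k) k) ≠ 0 := by
    rw [Ne, Polynomial.map_eq_zero_iff inj]
    exact hg
  obtain ⟨Rt, hRt⟩ : ∃ Rt, Rt = (g.map (algebraMap (𝓞 k) k)).roots.toFinset := ⟨_, rfl⟩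
  have memR : ∀ ξ, ξ ∈ Rt ↔ (g.map (algebraMap (𝓞 k) k)).IsRoot ξ := by
    intro ξ
    rw [hRt, Multiset.mem_toFinset, mem_roots hg0]
  have cR : Rt.card ≤ g.natDegree := by
    rw [hRt]
    refine (Multiset.toFinset_card_le _).trans ((card_roots' _).trans ?_)
    rw [natDegree_map_eq_of_injective inj]
  obtain ⟨A, hA⟩ : ∃ A : Finset k[X], A = Rt.image fun ξ => q.map (algebraMap (𝓞 k) k) -
      C ξ * r.map (algebraMap (𝓞 k) k) := ⟨_, rfl⟩
  have cA : A.card ≤ g.natDegree := by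
    rw [hA]
    exact Finset.card_image_le.trans cR
  have hAf : ∀ f ∈ A, InertOrTotal n f := by
    intro f hf
    rw [hA] at hf
    obtain ⟨ξ, hξ, rfl⟩ := Finset.mem_image.1 hf
    exact h1 ξ ((memR ξ).1 hξ)
  by_cases hI : I
  · obtain ⟨σ, hσ⟩ := prime_at (F := insert (r.map (algebraMap (𝓞 k) k)) A) hp (fun f hf => by
      rcases Finset.mem_insert.1 hf with rfl | hf
      · exact h2 hI
      · exact hAf f hf) (by
      have := Finset.card_insert_le (r.map (algebraMap (𝓞 k) k)) A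
      have := hc2 hI
      omega)
    exact ⟨σ, fun ξ hξ => hσ _ (Finset.mem_insert_of_mem (by
      rw [hA]
      exact Finset.mem_image_of_mem _ ((memR ξ).2 hξ))), fun _ => hσ _ (Finset.mem_insert_self _ _)⟩
  · obtain ⟨σ, hσ⟩ := prime_at (F := A) hp hAf (lt_of_le_of_lt cA (hc1 hI))
    exact ⟨σ, fun ξ hξ => hσ _ (by
      rw [hA]
      exact Finset.mem_image_of_mem _ ((memR ξ).2 hξ)), fun h => absurd h hI⟩

/-- The maps `t ↦ t ^ ℓ`. -/
theorem pow_sigma {g : (𝓞 k)[X]} {p : ℕ} (hp : p.Prime) (hg : g ≠ 0)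
    (hc : (((g.map (algebraMap (𝓞 k) k)).roots.toFinset).erase 0).card < p)
    (h : ∀ ξ : k, (g.map (algebraMap (𝓞 k) k)).IsRoot ξ → ξ ≠ 0 → ∀ y : k, y ^ p ≠ ξ) :
    ∃ σ : GK k, ∀ ξ : k, (g.map (algebraMap (𝓞 k) k)).IsRoot ξ →
      OneAt σ p (((X : (𝓞 k)[X]) ^ p).map (algebraMap (𝓞 k) k) -
        C ξ * (1 : (𝓞 k)[X]).map (algebraMap (𝓞 k) k)) := by
  have inj := FaithfulSMul.algebraMap_injective (𝓞 k) k
  have hg0 : g.map (algebraMap (𝓞 k) k) ≠ 0 := by
    rw [Ne, Polynomial.map_eq_zero_iff inj]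
    exact hg
  obtain ⟨σ, hσ⟩ := prime_at (F := (((g.map (algebraMap (𝓞 k) k)).roots.toFinset).erase 0).image
    fun ξ => (X ^ p - C ξ : k[X])) hp (fun f hf => by
      obtain ⟨ξ, hξ, rfl⟩ := Finset.mem_image.1 hf
      rw [Finset.mem_erase, Multiset.mem_toFinset, mem_roots hg0] at hξ
      exact Or.inl ⟨X_pow_sub_C_irreducible_of_prime hp (h ξ hξ.2 hξ.1), natDegree_X_pow_sub_C⟩)
    (lt_of_le_of_lt Finset.card_image_le hc)
  refine ⟨σ, fun ξ hξ => ?_⟩
  rw [Polynomial.map_pow, map_X, Polynomial.map_one, mul_one]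
  by_cases h0 : ξ = 0
  · obtain ⟨σ', h1⟩ := prime_at (k := k) (F := {(X : k[X]) ^ p}) hp (fun f hf => by
      rw [Finset.mem_singleton] at hf
      exact Or.inr ⟨1, 0, one_ne_zero, by rw [hf, C_0, sub_zero, C_1, one_mul]⟩)
      (by rw [Finset.card_singleton]; exact hp.one_lt)
    refine ⟨1, X - C 0, p, one_ne_zero, separable_X_sub_C, by rw [natDegree_X_sub_C, mul_one],
      by rw [h0, C_0, sub_zero, sub_zero, C_1, one_mul], ?_⟩
    have hroot : ∀ z, z ∈ (X - C (0 : k)).rootSet (AlgebraicClosure k) ↔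
        z = algebraMap k (AlgebraicClosure k) 0 := by
      intro z
      rw [mem_rootSet, aeval_sub, aeval_X, aeval_C, sub_eq_zero]
      exact ⟨fun h => h.2, fun h => ⟨X_sub_C_ne_zero 0, h⟩⟩
    refine ⟨algebraMap k (AlgebraicClosure k) 0, (hroot _).2 rfl, fun z hz => ⟨0, ?_⟩⟩
    rw [(hroot z).1 hz]
    rfl
  · refine hσ _ (Finset.mem_image.2 ⟨ξ, ?_, rfl⟩)
    rw [Finset.mem_erase, Multiset.mem_toFinset, mem_roots hg0]
    exact ⟨h0, hξ⟩

/-- The roots which are not powers. -/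
theorem pow_good {κ : Type} [Field κ] {g : κ[X]} {p : ℕ} (hp : p.Prime) (hk : (p : κ) ≠ 0)
    (h : ∀ P : κ[X], Irreducible P → P ∣ g → OneAbove (X ^ p) 1 p P) {η : κ} (hη : g.IsRoot η) :
    η = 0 ∨ ∀ y : κ, y ^ p ≠ η := by
  by_cases h0 : η = 0
  · exact Or.inl h0
  right
  intro y hy
  obtain ⟨ρ, e, f, u, hu, hρ, sρ, hef, hdeg, hpb⟩ := h (X - C η) (irreducible_X_sub_C η)
    (dvd_iff_isRoot.2 hη)
  rw [pb_lin, mul_one] at hpb
  have hsep : (X ^ p - C η : κ[X]).Separable := separable_X_pow_sub_C η hk h0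
  have hyr : (X ^ p - C η : κ[X]).IsRoot y := by
    rw [IsRoot.def, eval_sub, eval_pow, eval_X, eval_C, hy, sub_self]
  rw [hpb] at hyr hsep
  have hρy : ρ.IsRoot y := by
    rw [IsRoot.def, eval_mul, eval_C, eval_pow, mul_eq_zero] at hyr
    exact eq_zero_of_pow_eq_zero (hyr.resolve_left hu)
  have hd1 : ρ.natDegree = 1 := natDegree_eq_of_degree_eq_some (degree_eq_one_of_irreducible_of_root hρ hρy)
  rw [natDegree_X_sub_C, mul_one, hd1] at hdeg
  rw [← hdeg, mul_one] at hef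
  have hsq := hsep.squarefree
  have h2 : 2 ≤ e := by rw [hef]; exact hp.two_le
  have hdvd : ρ * ρ ∣ C u * ρ ^ e := by
    refine Dvd.dvd.mul_left ?_ _
    rw [← pow_two]
    exact pow_dvd_pow ρ h2
  exact hρ.not_isUnit (hsq ρ hdvd)

end forms

end Pool.Agent.J4H46.TP
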