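import Pool.Agent.J4H46.TP.Fam
import Pool.Agent.J4H46.TA.Crit

/-!
The reductions of the forms of the points of bad reduction.
-/

set_option autoImplicit false
set_option linter.all false

open Polynomial NumberField IsDedekindDomain Filter Topology
open scoped Classical

namespace Pool.Agent.J4H46.TP

open Pool.Agent.W401.Cheb Pool.Agent.J4H46.TA

section rel

variable {k : Type} [Field k]

theorem rootSet_C_mul {c : k} (hc : c ≠ 0) (f : k[X]) :
    (C c * f).rootSet (AlgebraicClosure k) = f.rootSet (AlgebraicClosure k) := by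
  ext x
  have h1 : algebraMap k (AlgebraicClosure k) c ≠ 0 := by simpa using hc
  have h2 : (C c * f ≠ 0) ↔ f ≠ 0 := by
    rw [Ne, mul_eq_zero, C_eq_zero]
    exact ⟨fun h h3 => h (Or.inr h3), fun h h3 => h (h3.resolve_left hc)⟩
  rw [mem_rootSet, mem_rootSet, map_mul, aeval_C, mul_eq_zero, h2, or_iff_right h1]

theorem OddCycles_C_mul {σ : AlgebraicClosure k ≃ₐ[k] AlgebraicClosure k} {c : k} (hc : c ≠ 0)
    {f : k[X]} (h : OddCycles σ f) : OddCycles σ (C c * f) := by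
  unfold OddCycles
  rw [rootSet_C_mul hc]
  exact h

end rel

section red

variable {k : Type} [Field k] [NumberField k]

theorem exists_int (ρ : k[X]) : ∃ (D : 𝓞 k) (ρ₁ : (𝓞 k)[X]), D ≠ 0 ∧
    ρ₁.map (algebraMap (𝓞 k) k) = C (algebraMap (𝓞 k) k D) * ρ := by
  obtain ⟨b, hb, e⟩ := IsLocalization.integerNormalization_spec (nonZeroDivisors (𝓞 k)) ρ
  refine ⟨b, IsLocalization.integerNormalization (nonZeroDivisors (𝓞 k)) ρ,
    nonZeroDivisors.ne_zero hb, ?_⟩
  rw [e, ← smul_eq_C_mul, algebraMap_smul]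

/-- The reduction of `c ρ ^ e` at the primes with a Frobenius element with odd cycles on the roots
of `ρ`. -/
theorem form_red {f : (𝓞 k)[X]} {c : k} {ρ : k[X]} {e : ℕ} (hc : c ≠ 0) (sρ : ρ.Separable)
    (od : Odd ρ.natDegree) (hf : f.map (algebraMap (𝓞 k) k) = C c * ρ ^ e) :
    ∃ s : 𝓞 k, s ≠ 0 ∧ ∀ (v : HeightOneSpectrum (𝓞 k)) (τ : GK k), IsFrob v τ → OddCycles τ ρ →
      ∀ (κ : Type) [Field κ] (r : 𝓞 k →+* κ), Function.Surjective r → RingHom.ker r = v.asIdeal →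
        r s ≠ 0 → ∃ (π : κ[X]) (u : κ), u ≠ 0 ∧ Irreducible π ∧ π.Separable ∧
          π.natDegree = ρ.natDegree ∧ f.map r = C u * π ^ e := by
  have inj := FaithfulSMul.algebraMap_injective (𝓞 k) k
  obtain ⟨D, ρ₁, hD, hρ₁⟩ := exists_int ρ
  have hD' : algebraMap (𝓞 k) k D ≠ 0 := (map_ne_zero_iff _ inj).2 hD
  have hρ0 : ρ ≠ 0 := sρ.ne_zero
  have hρ₁0 : ρ₁ ≠ 0 := by
    rintro rfl
    rw [Polynomial.map_zero] at hρ₁
    exact mul_ne_zero (by simpa using hD') hρ0 hρ₁.symm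
  have dρ : ρ₁.natDegree = ρ.natDegree := by
    rw [← natDegree_map_eq_of_injective inj, hρ₁, natDegree_C_mul hD']
  have sρ₁ : (ρ₁.map (algebraMap (𝓞 k) k)).Separable := by
    rw [hρ₁]
    exact sρ.unit_mul (isUnit_C.2 (isUnit_iff_ne_zero.2 hD'))
  obtain ⟨s₀, hs₀, hsep⟩ := sep_red sρ₁
  obtain ⟨⟨x, ⟨y, hy⟩⟩, hxy⟩ := IsLocalization.surj (nonZeroDivisors (𝓞 k))
    (c / (algebraMap (𝓞 k) k D) ^ e)
  have hy0 : y ≠ 0 := nonZeroDivisors.ne_zero hy
  have hc' : c / (algebraMap (𝓞 k) k D) ^ e ≠ 0 := div_ne_zero hc (pow_ne_zero _ hD')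
  have hxy' : c / (algebraMap (𝓞 k) k D) ^ e * algebraMap (𝓞 k) k y = algebraMap (𝓞 k) k x := hxy
  have hx0 : x ≠ 0 := by
    rintro rfl
    rw [map_zero] at hxy'
    exact mul_ne_zero hc' ((map_ne_zero_iff _ inj).2 hy0) hxy'
  have key : C y * f = C x * ρ₁ ^ e := by
    apply map_injective (algebraMap (𝓞 k) k) inj
    rw [Polynomial.map_mul, Polynomial.map_mul, Polynomial.map_pow, map_C, map_C, hf, hρ₁,
      mul_pow, ← hxy', ← C_pow]
    rw [← mul_assoc, ← mul_assoc, ← C_mul, ← C_mul]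
    congr 2
    field_simp
  refine ⟨x * y * s₀ * ρ₁.leadingCoeff, mul_ne_zero (mul_ne_zero (mul_ne_zero hx0 hy0) hs₀)
    (leadingCoeff_ne_zero.2 hρ₁0), ?_⟩
  intro v τ hF hτ κ _ r hr hk hs
  rw [map_mul, map_mul, map_mul] at hs
  have hl : r ρ₁.leadingCoeff ≠ 0 := right_ne_zero_of_mul hs
  have hs' := left_ne_zero_of_mul hs
  have hs1 : r s₀ ≠ 0 := right_ne_zero_of_mul hs'
  have hs2 := left_ne_zero_of_mul hs'
  have hx1 : r x ≠ 0 := left_ne_zero_of_mul hs2
  have hy1 : r y ≠ 0 := right_ne_zero_of_mul hs2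
  have sr := hsep κ r hs1
  obtain ⟨w, π, hw, mπ, iπ, oπ, eπ⟩ := (frob_split hF (by
    rw [hρ₁]
    exact OddCycles_C_mul hD' hτ) hr hk hl sr).1 (by rw [dρ]; exact od)
  refine ⟨π, r x * w ^ e / r y, div_ne_zero (mul_ne_zero hx1 (pow_ne_zero _ hw)) hy1, iπ, ?_, ?_,
    ?_⟩
  · rw [eπ] at sr
    exact sr.of_mul_right
  · rw [← dρ, ← natDegree_map_of_leadingCoeff_ne_zero r hl, eπ, natDegree_C_mul hw]
  · have h1 := congrArg (Polynomial.map r) key
    rw [Polynomial.map_mul, Polynomial.map_mul, Polynomial.map_pow, map_C, map_C, eπ, mul_pow,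
      ← C_pow] at h1
    have h2 : f.map r = C (r y)⁻¹ * (C (r y) * f.map r) := by
      rw [← mul_assoc, ← C_mul, inv_mul_cancel₀ hy1, C_1, one_mul]
    rw [h2, h1, ← mul_assoc, ← mul_assoc, ← C_mul, ← C_mul]
    congr 2
    field_simp

/-- The roots of the reduction of a polynomial which splits. -/
theorem root_red {g : (𝓞 k)[X]} (hs : (g.map (algebraMap (𝓞 k) k)).Splits)
    {κ : Type} [Field κ] (r : 𝓞 k →+* κ) (hl : r g.leadingCoeff ≠ 0) :
    (g.map r).Splits ∧ ∀ η : κ, (g.map r).IsRoot η → ∃ (ξ : k) (α : 𝓞 k),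
      (g.map (algebraMap (𝓞 k) k)).IsRoot ξ ∧
      algebraMap (𝓞 k) k α = algebraMap (𝓞 k) k g.leadingCoeff * ξ ∧
      r g.leadingCoeff * η = r α := by
  have inj := FaithfulSMul.algebraMap_injective (𝓞 k) k
  obtain ⟨l, hl'⟩ : ∃ l, l = g.leadingCoeff := ⟨_, rfl⟩
  rw [← hl'] at hl ⊢
  have hl0 : l ≠ 0 := fun h => hl (by rw [h, map_zero])
  have hjl : algebraMap (𝓞 k) k l ≠ 0 := (map_ne_zero_iff _ inj).2 hl0
  have hint : ∀ β : k, β ∈ (g.map (algebraMap (𝓞 k) k)).roots →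
      ∃ α : 𝓞 k, algebraMap (𝓞 k) k α = algebraMap (𝓞 k) k l * β := by
    intro β hβ
    have h0 : eval₂ (algebraMap (𝓞 k) k) β g = 0 := by
      rw [← eval_map]
      exact (mem_roots'.1 hβ).2
    have h1 : IsIntegral (𝓞 k) (algebraMap (𝓞 k) k l * β) := by
      rw [hl']
      exact (algebraMap (𝓞 k) k).isIntegralElem_leadingCoeff_mul g β h0
    have h2 : IsIntegral ℤ (algebraMap (𝓞 k) k l * β) := isIntegral_trans _ h1
    exact ⟨⟨_, h2⟩, rfl⟩
  choose! I hI using hint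
  have hprod : (scaleRoots g l).map (algebraMap (𝓞 k) k) = C (algebraMap (𝓞 k) k l) *
      ((g.map (algebraMap (𝓞 k) k)).roots.map (fun β => X - C (algebraMap (𝓞 k) k l * β))).prod := by
    have h1 := (hs.scaleRoots (algebraMap (𝓞 k) k l)).eq_prod_roots
    rw [leadingCoeff_scaleRoots, roots_scaleRoots _ (isUnit_iff_ne_zero.2 hjl),
      Multiset.map_map, leadingCoeff_map_of_leadingCoeff_ne_zero _ (by rw [← hl']; exact hjl),
      ← hl'] at h1
    rw [map_scaleRoots _ _ _ (by rw [← hl']; exact hjl), h1]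
    rfl
  have hprodS : scaleRoots g l = C l *
      ((g.map (algebraMap (𝓞 k) k)).roots.map (fun β => X - C (I β))).prod := by
    apply map_injective (algebraMap (𝓞 k) k) inj
    rw [Polynomial.map_mul, map_C, hprod, Polynomial.map_multiset_prod, Multiset.map_map]
    congr 2
    apply Multiset.map_congr rfl
    intro β hβ
    show _ = (X - C (I β)).map _
    rw [Polynomial.map_sub, map_X, map_C, hI β hβ]
  have hprodr : scaleRoots (g.map r) (r l) = C (r l) *
      ((g.map (algebraMap (𝓞 k) k)).roots.map (fun β => X - C (r (I β)))).prod := by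
    have h1 := congrArg (Polynomial.map r) hprodS
    rw [map_scaleRoots _ _ _ (by rw [← hl']; exact hl), Polynomial.map_mul, map_C,
      Polynomial.map_multiset_prod, Multiset.map_map] at h1
    rw [h1]
    congr 2
    apply Multiset.map_congr rfl
    intro β _
    show (X - C (I β)).map r = _
    rw [Polynomial.map_sub, map_X, map_C]
  have hsp1 : (scaleRoots (g.map r) (r l)).Splits := by
    rw [hprodr]
    refine (Splits.C _).mul ?_
    apply Splits.multisetProd
    intro p hp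
    obtain ⟨β, -, rfl⟩ := Multiset.mem_map.1 hp
    exact Splits.X_sub_C _
  refine ⟨?_, fun η hη => ?_⟩
  · have h1 := hsp1.scaleRoots (r l)⁻¹
    rw [← scaleRoots_mul, mul_inv_cancel₀ hl, scaleRoots_one] at h1
    exact h1
  · have h3 := scaleRoots_eval_mul (g.map r) η (r l)
    rw [IsRoot.def] at hη
    rw [hη, mul_zero, hprodr, eval_mul, eval_multiset_prod, Multiset.map_map] at h3
    have h4 := (mul_eq_zero.1 h3).resolve_left (by rw [eval_C]; exact hl)
    rw [Multiset.prod_eq_zero_iff, Multiset.mem_map] at h4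
    obtain ⟨β, hβ, h5⟩ := h4
    refine ⟨β, I β, (mem_roots'.1 hβ).2, hI β hβ, ?_⟩
    have h6 : eval (r l * η) (X - C (r (I β))) = 0 := h5
    rwa [eval_sub, eval_X, eval_C, sub_eq_zero] at h6

end red

end Pool.Agent.J4H46.TP
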