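import Pool.Agent.J4H46.TP.Red
import Pool.Agent.N181.TD.Index

/-!
The pullbacks of the rational elliptic surfaces with full level two over number fields.
-/

set_option autoImplicit false
set_option linter.all false

open Polynomial NumberField IsDedekindDomain Filter Topology
open scoped Classical

namespace Pool.Agent.J4H46.TP

open Pool.Agent.W401.Cheb Pool.Agent.J4H46.TA
open Pool.Agent.N181.TC (Full2 surfF)
open Pool.Agent.N181.TD
open Pool.Agent.N181.P8 (TateQ OneAbove OneAboveInf)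
open Pool.Agent.TH115.GD (IsTower)
open Pool.Agent.X243.Gen (pb pb_mul pb_C pb_lin)

section gen

variable {k : Type} [Field k] [NumberField k]

/-- One point above: `f = c ρ ^ e` with `ρ` separable of degree `n / e`, and `σ` permutes the roots of `ρ`
in one cycle. -/
def OneAt (σ : AlgebraicClosure k ≃ₐ[k] AlgebraicClosure k) (n : ℕ) (f : k[X]) : Prop :=
  ∃ (c : k) (ρ : k[X]) (e : ℕ), c ≠ 0 ∧ ρ.Separable ∧ e * ρ.natDegree = n ∧ f = C c * ρ ^ e ∧
    OneCycle σ ρ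

/-- A map `s = q(t) / r(t)` of odd degree `n`. -/
structure MapDeg (n : ℕ) (q r : (𝓞 k)[X]) : Prop where
  co : IsCoprime (q.map (algebraMap (𝓞 k) k)) (r.map (algebraMap (𝓞 k) k))
  qp : 0 < q.natDegree
  qn : q.natDegree ≤ n
  rn : r.natDegree ≤ n
  odd : Odd n

theorem root_int {g : (𝓞 k)[X]} {β : k} (hβ : (g.map (algebraMap (𝓞 k) k)).IsRoot β) :
    ∃ α : 𝓞 k, algebraMap (𝓞 k) k α = algebraMap (𝓞 k) k g.leadingCoeff * β := by
  have h0 : eval₂ (algebraMap (𝓞 k) k) β g = 0 := by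
    rw [← eval_map]
    exact hβ
  have h1 : IsIntegral (𝓞 k) (algebraMap (𝓞 k) k g.leadingCoeff * β) :=
    (algebraMap (𝓞 k) k).isIntegralElem_leadingCoeff_mul g β h0
  have h2 : IsIntegral ℤ (algebraMap (𝓞 k) k g.leadingCoeff * β) := isIntegral_trans _ h1
  exact ⟨⟨_, h2⟩, rfl⟩

/-- **The reduction of a map**: the forms above the roots of `g` and above infinity. -/
theorem map_red {g q r : (𝓞 k)[X]} {n : ℕ} (hn : Odd n) (hg : g ≠ 0)
    (hs : (g.map (algebraMap (𝓞 k) k)).Splits) {I : Prop} {σ : GK k}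
    (h1 : ∀ ξ : k, (g.map (algebraMap (𝓞 k) k)).IsRoot ξ →
      OneAt σ n (q.map (algebraMap (𝓞 k) k) - C ξ * r.map (algebraMap (𝓞 k) k)))
    (h2 : I → OneAt σ n (r.map (algebraMap (𝓞 k) k))) :
    ∃ (F : Finset k[X]) (s : 𝓞 k), s ≠ 0 ∧ (∀ f ∈ F, f ≠ 0) ∧ (∀ f ∈ F, OddCycles σ f) ∧
      ∀ (v : HeightOneSpectrum (𝓞 k)) (τ : GK k), IsFrob v τ → (∀ f ∈ F, OddCycles τ f) →
      ∀ (κ : Type) [Field κ] (π : 𝓞 k →+* κ), Function.Surjective π → RingHom.ker π = v.asIdeal →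
        π s ≠ 0 → (g.map π).natDegree = g.natDegree ∧
        (∀ P : κ[X], Irreducible P → P ∣ g.map π →
          OneAbove (q.map π) (r.map π) n P) ∧
        (I → OneAboveInf (r.map π) n) := by
  have inj := FaithfulSMul.algebraMap_injective (𝓞 k) k
  obtain ⟨l, hl'⟩ : ∃ l, l = g.leadingCoeff := ⟨_, rfl⟩
  have hl0 : l ≠ 0 := by rw [hl']; exact leadingCoeff_ne_zero.2 hg
  have hjl : algebraMap (𝓞 k) k l ≠ 0 := (map_ne_zero_iff _ inj).2 hl0
  -- odd degrees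
  have hodd : ∀ {e m : ℕ}, e * m = n → Odd m := by
    intro e m h
    rw [← h] at hn
    exact (Nat.odd_mul.1 hn).2
  -- the data
  have key : ∀ ξ : k, ∃ (α : 𝓞 k) (ρ : k[X]) (e : ℕ) (s : 𝓞 k),
      (g.map (algebraMap (𝓞 k) k)).IsRoot ξ →
      algebraMap (𝓞 k) k α = algebraMap (𝓞 k) k l * ξ ∧ ρ ≠ 0 ∧ OddCycles σ ρ ∧
      e * ρ.natDegree = n ∧ s ≠ 0 ∧
      ∀ (v : HeightOneSpectrum (𝓞 k)) (τ : GK k), IsFrob v τ → OddCycles τ ρ →
      ∀ (κ : Type) [Field κ] (π : 𝓞 k →+* κ), Function.Surjective π → RingHom.ker π = v.asIdeal →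
        π s ≠ 0 → ∃ (P : κ[X]) (u : κ), u ≠ 0 ∧ Irreducible P ∧ P.Separable ∧
          P.natDegree = ρ.natDegree ∧ (C l * q - C α * r).map π = C u * P ^ e := by
    intro ξ
    by_cases hξ : (g.map (algebraMap (𝓞 k) k)).IsRoot ξ
    · obtain ⟨α, hα⟩ := root_int hξ
      rw [← hl'] at hα
      obtain ⟨c, ρ, e, hc, sρ, hen, hf, hσ⟩ := h1 ξ hξ
      have e1 : (C l * q - C α * r).map (algebraMap (𝓞 k) k) =
          C (algebraMap (𝓞 k) k l * c) * ρ ^ e := by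
        rw [C_mul, mul_assoc, ← hf, Polynomial.map_sub, Polynomial.map_mul, Polynomial.map_mul,
          map_C, map_C, hα, C_mul]
        ring
      obtain ⟨s, hs0, hs1⟩ := form_red (mul_ne_zero hjl hc) sρ (hodd hen) e1
      exact ⟨α, ρ, e, s, fun _ => ⟨hα, sρ.ne_zero, oddCycles_of_one sρ (hodd hen) hσ, hen, hs0,
        hs1⟩⟩
    · exact ⟨0, 0, 0, 0, fun h => absurd h hξ⟩
  choose α ρ e s hkey using key
  -- the place at infinity
  obtain ⟨ρi, ei, si, hsi0, hi⟩ : ∃ (ρ : k[X]) (e : ℕ) (s : 𝓞 k), s ≠ 0 ∧ (I → 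
      ρ ≠ 0 ∧ OddCycles σ ρ ∧ e * ρ.natDegree = n ∧
      ∀ (v : HeightOneSpectrum (𝓞 k)) (τ : GK k), IsFrob v τ → OddCycles τ ρ →
      ∀ (κ : Type) [Field κ] (π : 𝓞 k →+* κ), Function.Surjective π → RingHom.ker π = v.asIdeal →
        π s ≠ 0 → ∃ (P : κ[X]) (u : κ), u ≠ 0 ∧ Irreducible P ∧ P.Separable ∧
          P.natDegree = ρ.natDegree ∧ r.map π = C u * P ^ e) := by
    by_cases hI : I
    · obtain ⟨c, ρ, e, hc, sρ, hen, hf, hσ⟩ := h2 hI
      obtain ⟨s, hs0, hs1⟩ := form_red hc sρ (hodd hen) hf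
      exact ⟨ρ, e, s, hs0, fun _ => ⟨sρ.ne_zero, oddCycles_of_one sρ (hodd hen) hσ, hen, hs1⟩⟩
    · exact ⟨0, 0, 1, one_ne_zero, fun h => absurd h hI⟩
  obtain ⟨Rt, hRt⟩ : ∃ Rt, Rt = (g.map (algebraMap (𝓞 k) k)).roots.toFinset := ⟨_, rfl⟩
  have hg0 : g.map (algebraMap (𝓞 k) k) ≠ 0 := by
    rw [Ne, Polynomial.map_eq_zero_iff inj]
    exact hg
  have memR : ∀ ξ, ξ ∈ Rt ↔ (g.map (algebraMap (𝓞 k) k)).IsRoot ξ := by
    intro ξ
    rw [hRt, Multiset.mem_toFinset, mem_roots hg0]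
  obtain ⟨Fi, hFi⟩ : ∃ Fi : Finset k[X], Fi = if I then {ρi} else ∅ := ⟨_, rfl⟩
  have memF : ∀ f, f ∈ Fi ↔ I ∧ f = ρi := by
    intro f
    rw [hFi]
    by_cases hI : I
    · rw [if_pos hI, Finset.mem_singleton]
      exact ⟨fun h => ⟨hI, h⟩, fun h => h.2⟩
    · rw [if_neg hI]
      exact ⟨fun h => absurd h (Finset.notMem_empty f), fun h => absurd h.1 hI⟩
  refine ⟨Rt.image ρ ∪ Fi, (∏ ξ ∈ Rt, s ξ) * si * l, ?_, ?_, ?_, ?_⟩
  · refine mul_ne_zero (mul_ne_zero (Finset.prod_ne_zero_iff.2 fun ξ hξ => ?_) hsi0) hl0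
    exact (hkey ξ ((memR ξ).1 hξ)).2.2.2.2.1
  · intro f hf
    rcases Finset.mem_union.1 hf with hf | hf
    · obtain ⟨ξ, hξ, rfl⟩ := Finset.mem_image.1 hf
      exact (hkey ξ ((memR ξ).1 hξ)).2.1
    · obtain ⟨hI, rfl⟩ := (memF f).1 hf
      exact (hi hI).1
  · intro f hf
    rcases Finset.mem_union.1 hf with hf | hf
    · obtain ⟨ξ, hξ, rfl⟩ := Finset.mem_image.1 hf
      exact (hkey ξ ((memR ξ).1 hξ)).2.2.1
    · obtain ⟨hI, rfl⟩ := (memF f).1 hf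
      exact (hi hI).2.1
  · intro v τ hF hτ κ _ π hr hk hπ
    rw [map_mul, map_mul, map_prod] at hπ
    have hπl : π l ≠ 0 := right_ne_zero_of_mul hπ
    have hπ' := left_ne_zero_of_mul hπ
    have hπi : π si ≠ 0 := right_ne_zero_of_mul hπ'
    have hπs : ∀ ξ ∈ Rt, π (s ξ) ≠ 0 := Finset.prod_ne_zero_iff.1 (left_ne_zero_of_mul hπ')
    have hπl' : π g.leadingCoeff ≠ 0 := by rw [← hl']; exact hπl
    refine ⟨natDegree_map_of_leadingCoeff_ne_zero π hπl', ?_, ?_⟩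
    · intro P hP hPg
      obtain ⟨hsp, hrt⟩ := root_red hs π hπl'
      have hgπ0 : g.map π ≠ 0 := by
        intro h0
        have h3 := leadingCoeff_map_of_leadingCoeff_ne_zero π hπl'
        rw [h0, leadingCoeff_zero] at h3
        exact hπl' h3.symm
      obtain ⟨η, hη⟩ := exists_root_of_degree_eq_one
        ((hsp.of_dvd hgπ0 hPg).degree_eq_one_of_irreducible hP)
      obtain ⟨x, hx⟩ := (irreducible_X_sub_C η).associated_of_dvd hP (dvd_iff_isRoot.2 hη)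
      obtain ⟨u, hu, hux⟩ := Polynomial.isUnit_iff.1 x.isUnit
      have eP : P = C u * (X - C η) := by rw [← hx, ← hux, mul_comm]
      have dP : P.natDegree = 1 := by rw [eP, natDegree_C_mul hu.ne_zero, natDegree_X_sub_C]
      obtain ⟨ξ, α', hξ, hα', hη'⟩ := hrt η (hη.dvd hPg)
      obtain ⟨hα, hρ0, hρσ, hen, hs0, hred⟩ := hkey ξ hξ
      rw [← hl'] at hα' hη'
      have eα : α' = α ξ := inj (by rw [hα', hα])
      obtain ⟨P₁, w, hw, iP, sP, dP₁, eP₁⟩ := hred v τ hF (hτ _ (Finset.mem_union_left _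
        (Finset.mem_image_of_mem ρ ((memR ξ).2 hξ)))) κ π hr hk (hπs ξ ((memR ξ).2 hξ))
      have e2 : (C l * q - C (α ξ) * r).map π = C (π l) * (q.map π - C η * r.map π) := by
        rw [Polynomial.map_sub, Polynomial.map_mul, Polynomial.map_mul, map_C, map_C, ← eα, ← hη',
          C_mul]
        ring
      refine ⟨P₁, e ξ, (ρ ξ).natDegree, u * w / π l, div_ne_zero (mul_ne_zero hu.ne_zero hw) hπl,
        iP, sP, hen, by rw [dP, mul_one, dP₁], ?_⟩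
      rw [eP, pb_mul, pb_C, pb_lin]
      have e3 : q.map π - C η * r.map π = C (π l)⁻¹ * (C (π l) * (q.map π - C η * r.map π)) := by
        rw [← mul_assoc, ← C_mul, inv_mul_cancel₀ hπl, C_1, one_mul]
      rw [e3, ← e2, eP₁, ← mul_assoc, ← mul_assoc, ← C_mul, ← C_mul]
      congr 2
      field_simp
    · intro hI
      obtain ⟨hρ0, hρσ, hen, hred⟩ := hi hI
      obtain ⟨P₁, w, hw, iP, sP, dP₁, eP₁⟩ := hred v τ hF (hτ _ (Finset.mem_union_right _
        ((memF ρi).2 ⟨hI, rfl⟩))) κ π hr hk hπi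
      exact Or.inr ⟨P₁, ei, ρi.natDegree, w, hw, iP, sP, hen, dP₁, eP₁⟩

end gen

end Pool.Agent.J4H46.TP
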